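import Pool.Agent.H242.GX.Stm

/-!
# GX-BODY (subtask 11278, owner helper242): `body p` is a table with boundary `gam p`
-/

set_option autoImplicit false

open Set Filter Topology
open scoped ContDiff

namespace Pool.Agent.H947.GX

open Pool.Agent.H242.GX

theorem ip_add (z w v : ℂ) : ip (z + w) v = ip z v + ip w v := by
  unfold ip
  rw [Complex.add_re, Complex.add_im]
  ring

theorem ip_smul (c : ℝ) (z v : ℂ) : ip (c • z) v = c * ip z v := by
  unfold ip
  rw [Complex.smul_re, Complex.smul_im, smul_eq_mul, smul_eq_mul]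
  ring

theorem ip_nn (α : ℝ) : ip (nu α) (nu α) = 1 := by
  unfold ip nu
  have := Real.sin_sq_add_cos_sq α
  simp only
  nlinarith

theorem ip_en (α : ℝ) : ip (e α) (nu α) = 0 := by
  unfold ip nu e
  simp only
  ring

theorem ip_ne (α : ℝ) : ip (nu α) (e α) = 0 := by
  unfold ip nu e
  simp only
  ring

theorem ip_ee (α : ℝ) : ip (e α) (e α) = 1 := by
  unfold ip e
  have := Real.sin_sq_add_cos_sq α
  simp only
  nlinarith

theorem decomp (z : ℂ) (α : ℝ) : z = ip z (nu α) • nu α + ip z (e α) • e α := by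
  have h := Real.sin_sq_add_cos_sq α
  apply Complex.ext
  · rw [Complex.add_re, Complex.smul_re, Complex.smul_re, smul_eq_mul, smul_eq_mul]
    unfold ip nu e
    simp only
    linear_combination (-z.re) * h
  · rw [Complex.add_im, Complex.smul_im, Complex.smul_im, smul_eq_mul, smul_eq_mul]
    unfold ip nu e
    simp only
    linear_combination (-z.im) * h

theorem continuous_ip (v : ℂ) : Continuous fun z => ip z v := by
  unfold ip
  exact (Complex.continuous_re.mul continuous_const).add (Complex.continuous_im.mul continuous_const)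

theorem mk_eq (a b : ℝ) : (⟨a, b⟩ : ℂ) = (a : ℂ) + (b : ℂ) * Complex.I := by
  apply Complex.ext <;> simp

theorem e_eq : e = fun x : ℝ => ((Real.cos x : ℝ) : ℂ) + ((Real.sin x : ℝ) : ℂ) * Complex.I := by
  funext x
  exact mk_eq _ _

theorem nu_eq : nu = fun x : ℝ => ((Real.sin x : ℝ) : ℂ) - ((Real.cos x : ℝ) : ℂ) * Complex.I := by
  funext x
  have h : nu x = ⟨Real.sin x, -Real.cos x⟩ := rfl
  rw [h, mk_eq]
  push_cast
  ring

theorem hasDerivAt_e (α : ℝ) : HasDerivAt e (-nu α) α := by
  have h1 := (Real.hasDerivAt_cos α).ofReal_comp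
  have h2 := ((Real.hasDerivAt_sin α).ofReal_comp).mul_const Complex.I
  have h3 := h1.add h2
  rw [e_eq]
  refine h3.congr_deriv ?_
  rw [nu_eq]
  push_cast
  ring

theorem hasDerivAt_nu (α : ℝ) : HasDerivAt nu (e α) α := by
  have h1 := (Real.hasDerivAt_sin α).ofReal_comp
  have h2 := ((Real.hasDerivAt_cos α).ofReal_comp).mul_const Complex.I
  have h3 := h1.sub h2
  rw [nu_eq]
  refine h3.congr_deriv ?_
  rw [e_eq]
  push_cast
  ring

theorem hasDerivAt_ip_nu (z : ℂ) (α : ℝ) : HasDerivAt (fun β => ip z (nu β)) (ip z (e α)) α := by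
  have h := ((Real.hasDerivAt_sin α).const_mul z.re).add (((Real.hasDerivAt_cos α).neg).const_mul z.im)
  unfold ip nu e
  refine h.congr_deriv ?_
  simp only
  ring

theorem contDiff_e : ContDiff ℝ ∞ e := by
  rw [e_eq]
  exact (Complex.ofRealCLM.contDiff.comp Real.contDiff_cos).add
    ((Complex.ofRealCLM.contDiff.comp Real.contDiff_sin).mul contDiff_const)

theorem contDiff_nu : ContDiff ℝ ∞ nu := by
  rw [nu_eq]
  exact (Complex.ofRealCLM.contDiff.comp Real.contDiff_sin).sub
    ((Complex.ofRealCLM.contDiff.comp Real.contDiff_cos).mul contDiff_const)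

theorem nu_per (α : ℝ) : nu (α + 2 * Real.pi) = nu α := by
  unfold nu
  rw [Real.sin_add_two_pi, Real.cos_add_two_pi]

theorem e_per (α : ℝ) : e (α + 2 * Real.pi) = e α := by
  unfold e
  rw [Real.sin_add_two_pi, Real.cos_add_two_pi]

section

variable {p : ℝ → ℝ} (hp : Supp p)
include hp

theorem contDiff_dp : ContDiff ℝ ∞ (deriv p) := by
  have h := hp.smooth
  rw [contDiff_infty_iff_deriv] at h
  exact h.2

theorem hasDerivAt_p (α : ℝ) : HasDerivAt p (deriv p α) α :=
  ((hp.smooth.differentiable (by simp)) α).hasDerivAt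

theorem hasDerivAt_dp (α : ℝ) : HasDerivAt (deriv p) (deriv (deriv p) α) α :=
  (((contDiff_dp hp).differentiable (by simp)) α).hasDerivAt

theorem dp_per (α : ℝ) : deriv p (α + 2 * Real.pi) = deriv p α := by
  have h : (fun x => p (x + 2 * Real.pi)) = p := funext hp.per
  rw [← deriv_comp_add_const, h]

theorem gam_per (α : ℝ) : gam p (α + 2 * Real.pi) = gam p α := by
  unfold gam
  rw [hp.per, dp_per hp, nu_per, e_per]

theorem contDiff_gam : ContDiff ℝ ∞ (gam p) := by
  unfold gam
  exact (hp.smooth.smul contDiff_nu).add ((contDiff_dp hp).smul contDiff_e)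

theorem hasDerivAt_gam (α : ℝ) :
    HasDerivAt (gam p) ((p α + deriv (deriv p) α) • e α) α := by
  have h := ((hasDerivAt_p hp α).smul (hasDerivAt_nu α)).add
    ((hasDerivAt_dp hp α).smul (hasDerivAt_e α))
  refine HasDerivAt.congr_deriv (f := gam p) h ?_
  rw [add_smul, smul_neg]
  abel

omit hp in
theorem ip_gam_nu (θ : ℝ) : ip (gam p θ) (nu θ) = p θ := by
  unfold gam
  rw [ip_add, ip_smul, ip_smul, ip_nn, ip_en]
  ring

omit hp in
theorem psi_zero (θ : ℝ) : Psi p θ 0 = gam p θ := by
  unfold Psi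
  rw [zero_smul, add_zero]

omit hp in
theorem ip_psi_nu (θ y : ℝ) : ip (Psi p θ y) (nu θ) = p θ + y := by
  unfold Psi
  rw [ip_add, ip_gam_nu, ip_smul, ip_nn, mul_one]

theorem key (hKEY : S_KEY) (θ α : ℝ) : ip (gam p θ) (nu α) ≤ p α ∧
    (ip (gam p θ) (nu α) = p α → ∃ k : ℤ, α = θ + k * (2 * Real.pi)) := by
  have h := hKEY p hp θ 0 (fun α => by rw [add_zero]; exact hp.pos α) α
  rw [psi_zero, add_zero] at h
  exact h

theorem gam_mem (hKEY : S_KEY) (θ : ℝ) : gam p θ ∈ body p := fun α => (key hp hKEY θ α).1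

/-- a point of the body on a supporting line -/
theorem eq_gam {x : ℂ} (hx : x ∈ body p) {α : ℝ} (h : ip x (nu α) = p α) : x = gam p α := by
  have hmax : IsLocalMax (fun β => ip x (nu β) - p β) α := by
    refine Filter.Eventually.of_forall fun β => ?_
    have h1 := hx β
    change ip x (nu β) - p β ≤ ip x (nu α) - p α
    linarith
  have hd := (hasDerivAt_ip_nu x α).sub (hasDerivAt_p hp α)
  have h0 := hmax.hasDerivAt_eq_zero hd
  rw [decomp x α]
  unfold gam
  rw [h]
  have h1 : ip x (e α) = deriv p α := by linarith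
  rw [h1]

omit hp in
theorem isClosed_body : IsClosed (body p) := by
  have : body p = ⋂ α, {z | ip z (nu α) ≤ p α} := by
    ext z
    simp [body]
  rw [this]
  exact isClosed_iInter fun α => isClosed_le (continuous_ip _) continuous_const

omit hp in
theorem isCompact_body : IsCompact (body p) := by
  refine Metric.isCompact_of_isClosed_isBounded isClosed_body ?_
  rw [Metric.isBounded_iff_subset_closedBall (0 : ℂ)]
  refine ⟨|p (Real.pi / 2)| + |p (-(Real.pi / 2))| + (|p 0| + |p Real.pi|), fun z hz => ?_⟩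
  have h1 : z.re ≤ p (Real.pi / 2) := by
    have := hz (Real.pi / 2)
    unfold ip nu at this
    simp only [Real.sin_pi_div_two, Real.cos_pi_div_two] at this
    linarith
  have h2 : -z.re ≤ p (-(Real.pi / 2)) := by
    have := hz (-(Real.pi / 2))
    unfold ip nu at this
    simp only [Real.sin_neg, Real.cos_neg, Real.sin_pi_div_two, Real.cos_pi_div_two] at this
    linarith
  have h3 : -z.im ≤ p 0 := by
    have := hz 0
    unfold ip nu at this
    simp only [Real.sin_zero, Real.cos_zero] at this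
    linarith
  have h4 : z.im ≤ p Real.pi := by
    have := hz Real.pi
    unfold ip nu at this
    simp only [Real.sin_pi, Real.cos_pi] at this
    linarith
  rw [mem_closedBall_zero_iff]
  refine (Complex.norm_le_abs_re_add_abs_im z).trans ?_
  have a1 : |z.re| ≤ |p (Real.pi / 2)| + |p (-(Real.pi / 2))| := by
    rw [abs_le]
    have b1 := le_abs_self (p (Real.pi / 2))
    have b2 := le_abs_self (p (-(Real.pi / 2)))
    have b3 := abs_nonneg (p (Real.pi / 2))
    have b4 := abs_nonneg (p (-(Real.pi / 2)))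
    constructor <;> linarith
  have a2 : |z.im| ≤ |p 0| + |p Real.pi| := by
    rw [abs_le]
    have b1 := le_abs_self (p 0)
    have b2 := le_abs_self (p Real.pi)
    have b3 := abs_nonneg (p 0)
    have b4 := abs_nonneg (p Real.pi)
    constructor <;> linarith
  linarith

omit hp in
theorem convex_body : Convex ℝ (body p) := by
  intro x hx y hy a b ha hb hab α
  rw [ip_add, ip_smul, ip_smul]
  have h1 := mul_le_mul_of_nonneg_left (hx α) ha
  have h2 := mul_le_mul_of_nonneg_left (hy α) hb
  have h3 : a * p α + b * p α = p α := by rw [← add_mul, hab, one_mul]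
  linarith

/-- the open body -/
def AA (p : ℝ → ℝ) : Set ℂ := {z | ∀ α, ip z (nu α) < p α}

omit hp in
theorem ip_le_norm (z : ℂ) (α : ℝ) : ip z (nu α) ≤ ‖z‖ := by
  have h := Real.sin_sq_add_cos_sq α
  apply Real.le_sqrt_of_sq_le _ |>.trans
  · rw [Complex.norm_def]
  · rw [Complex.normSq_apply]
    unfold ip nu
    simp only
    have h2 : (z.re * Real.sin α + z.im * -Real.cos α) ^ 2 +
        (z.re * Real.cos α + z.im * Real.sin α) ^ 2 =
        (z.re * z.re + z.im * z.im) * (Real.sin α ^ 2 + Real.cos α ^ 2) := by ring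
    rw [h, mul_one] at h2
    nlinarith [sq_nonneg (z.re * Real.cos α + z.im * Real.sin α)]

theorem isOpen_AA : IsOpen (AA p) := by
  rw [Metric.isOpen_iff]
  intro z hz
  have hcont : Continuous fun α => p α - ip z (nu α) := by
    have h1 : Continuous fun α => ip z (nu α) :=
      continuous_iff_continuousAt.2 fun α => (hasDerivAt_ip_nu z α).continuousAt
    exact hp.smooth.continuous.sub h1
  have hper : Function.Periodic (fun α => p α - ip z (nu α)) (2 * Real.pi) := by
    intro α
    simp only [hp.per, nu_per]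
  obtain ⟨β, hβ, hmin⟩ := isCompact_Icc.exists_isMinOn
    (nonempty_Icc.2 (by positivity : (0:ℝ) ≤ 2 * Real.pi)) hcont.continuousOn
  refine ⟨p β - ip z (nu β), sub_pos.2 (hz β), fun w hw α => ?_⟩
  obtain ⟨α', hα', he⟩ := hper.exists_mem_Ico₀ (by positivity) α
  have h1 : p β - ip z (nu β) ≤ p α' - ip z (nu α') := hmin (Ico_subset_Icc_self hα')
  have h2 : p α - ip z (nu α) = p α' - ip z (nu α') := he
  have h3 : ip w (nu α) = ip z (nu α) + ip (w - z) (nu α) := by
    rw [← ip_add]; congr 1; ring
  have h4 := ip_le_norm (w - z) α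
  rw [Metric.mem_ball, dist_eq_norm] at hw
  linarith

omit hp in
theorem AA_subset : AA p ⊆ body p := fun _ hz α => (hz α).le

/-- the boundary points -/
theorem bdry (hMAX : S_MAX) {z : ℂ} (hz : z ∈ body p) (hzA : z ∉ AA p) : ∃ φ, z = gam p φ := by
  obtain ⟨φ, y, hψ, hle⟩ := hMAX p hp z
  have h1 : ip z (nu φ) = p φ + y := by rw [← hψ, ip_psi_nu]
  have h2 := hz φ
  have h3 : ¬ y < 0 := fun hy => hzA fun α => by linarith [hle α]
  have h4 : y = 0 := by
    apply le_antisymm _ (not_lt.1 h3)
    linarith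
  exact ⟨φ, by rw [← hψ, h4, psi_zero]⟩

omit hp in
theorem gam_not_interior (φ : ℝ) : gam p φ ∉ interior (body p) := by
  intro h
  have hc : Continuous fun s : ℝ => gam p φ + s • nu φ :=
    continuous_const.add (continuous_id.smul continuous_const)
  have h0 : ∀ᶠ s in 𝓝 (0 : ℝ), gam p φ + s • nu φ ∈ interior (body p) := by
    refine hc.continuousAt.eventually_mem ?_
    refine isOpen_interior.mem_nhds ?_
    rw [zero_smul, add_zero]
    exact h
  obtain ⟨s, hs1, hs2⟩ := ((h0.filter_mono nhdsWithin_le_nhds).and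
    (self_mem_nhdsWithin : Ioi (0:ℝ) ∈ 𝓝[>] (0:ℝ))).exists
  have h1 := interior_subset hs1 φ
  rw [ip_add, ip_gam_nu, ip_smul, ip_nn, mul_one] at h1
  have h2 : 0 < s := hs2
  linarith

theorem interior_body (hMAX : S_MAX) : interior (body p) = AA p := by
  apply Subset.antisymm
  · intro z hz
    by_contra hzA
    obtain ⟨φ, rfl⟩ := bdry hp hMAX (interior_subset hz) hzA
    exact gam_not_interior φ hz
  · exact interior_maximal AA_subset (isOpen_AA hp)

theorem frontier_body (hKEY : S_KEY) (hMAX : S_MAX) : frontier (body p) = range (gam p) := by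
  rw [frontier, isClosed_body.closure_eq, interior_body hp hMAX]
  ext z
  constructor
  · rintro ⟨hz, hzA⟩
    obtain ⟨φ, hφ⟩ := bdry hp hMAX hz hzA
    exact ⟨φ, hφ.symm⟩
  · rintro ⟨φ, rfl⟩
    refine ⟨gam_mem hp hKEY φ, fun h => ?_⟩
    have := h φ
    rw [ip_gam_nu] at this
    exact lt_irrefl _ this

theorem nonempty_AA (hKEY : S_KEY) : (AA p).Nonempty := by
  refine ⟨(1 / 2 : ℝ) • (gam p 0 + gam p 1), fun α => ?_⟩
  rw [ip_smul, ip_add]
  have h0 := key hp hKEY 0 α
  have h1 := key hp hKEY 1 α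
  by_contra hcon
  push Not at hcon
  have e0 : ip (gam p 0) (nu α) = p α := by linarith [h0.1, h1.1]
  have e1 : ip (gam p 1) (nu α) = p α := by linarith [h0.1, h1.1]
  obtain ⟨k, hk⟩ := h0.2 e0
  obtain ⟨l, hl⟩ := h1.2 e1
  have h2 : ((k - l : ℤ) : ℝ) * (2 * Real.pi) = 1 := by
    push_cast
    linarith
  have hpi := Real.pi_gt_three
  rcases lt_trichotomy (k - l) 0 with h | h | h
  · have h3 : ((k - l : ℤ) : ℝ) ≤ -1 := by exact_mod_cast (by omega : k - l ≤ -1)
    nlinarith
  · rw [h] at h2
    norm_num at h2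
  · have h3 : (1 : ℝ) ≤ ((k - l : ℤ) : ℝ) := by exact_mod_cast (by omega : 1 ≤ k - l)
    nlinarith

theorem strictConvex_body (hMAX : S_MAX) : StrictConvex ℝ (body p) := by
  intro x hx y hy hxy a b ha hb hab
  rw [interior_body hp hMAX]
  intro α
  by_contra hcon
  push Not at hcon
  rw [ip_add, ip_smul, ip_smul] at hcon
  have h1 := hx α
  have h2 := hy α
  have h3 : a * p α + b * p α = p α := by rw [← add_mul, hab, one_mul]
  have h4 : ip x (nu α) = p α := by
    apply le_antisymm h1
    by_contra h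
    push Not at h
    have := mul_lt_mul_of_pos_left h ha
    have := mul_le_mul_of_nonneg_left h2 hb.le
    linarith
  have h5 : ip y (nu α) = p α := by
    apply le_antisymm h2
    by_contra h
    push Not at h
    have := mul_lt_mul_of_pos_left h hb
    have := mul_le_mul_of_nonneg_left h1 ha.le
    linarith
  exact hxy ((eq_gam hp hx h4).trans (eq_gam hp hy h5).symm)

end

/-- **GX-BODY** -/
theorem gx_BODY (hKEY : S_KEY) (hMAX : S_MAX) : S_BODY := by
  intro p hp
  refine ⟨⟨isCompact_body, strictConvex_body hp hMAX, ?_, fun t => gam p (2 * Real.pi * t), ?_, ?_,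
    ?_, ?_, ?_⟩, convex_body, frontier_body hp hKEY hMAX, interior_body hp hMAX⟩
  · rw [interior_body hp hMAX]
    exact nonempty_AA hp hKEY
  · exact (contDiff_gam hp).comp (contDiff_const.mul contDiff_id)
  · intro t
    change gam p (2 * Real.pi * (t + 1)) = gam p (2 * Real.pi * t)
    rw [mul_add, mul_one, gam_per hp]
  · intro s hs t ht hst
    change gam p (2 * Real.pi * s) = gam p (2 * Real.pi * t) at hst
    have h1 : ip (gam p (2 * Real.pi * s)) (nu (2 * Real.pi * t)) = p (2 * Real.pi * t) := by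
      rw [hst, ip_gam_nu]
    obtain ⟨k, hk⟩ := (key hp hKEY (2 * Real.pi * s) (2 * Real.pi * t)).2 h1
    have hpi := Real.pi_pos
    have h2 : t = s + k := by
      have h3 : 2 * Real.pi * t = 2 * Real.pi * (s + k) := by rw [hk]; ring
      exact mul_left_cancel₀ (by positivity) h3
    have h4 : (k : ℝ) < 1 := by linarith [ht.2, hs.1]
    have h5 : (-1 : ℝ) < k := by linarith [ht.1, hs.2]
    have h6 : k < 1 := by exact_mod_cast h4
    have h7 : -1 < k := by exact_mod_cast h5
    have h8 : k = 0 := by omega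
    rw [h2, h8]
    simp
  · intro t
    have h1 : HasDerivAt (fun t : ℝ => 2 * Real.pi * t) (2 * Real.pi) t := by
      simpa using (hasDerivAt_id t).const_mul (2 * Real.pi)
    have h2 := (hasDerivAt_gam hp (2 * Real.pi * t)).scomp t h1
    have h3 : deriv (fun t => gam p (2 * Real.pi * t)) t = _ := h2.deriv
    rw [h3]
    have h4 := hp.pos (2 * Real.pi * t)
    have h5 : e (2 * Real.pi * t) ≠ 0 := by
      intro h
      have := ip_ee (2 * Real.pi * t)
      rw [h] at this
      simp [ip] at this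
    exact smul_ne_zero (by positivity) (smul_ne_zero h4.ne' h5)
  · rw [frontier_body hp hKEY hMAX]
    ext z
    constructor
    · rintro ⟨t, rfl⟩
      exact ⟨_, rfl⟩
    · rintro ⟨α, rfl⟩
      refine ⟨α / (2 * Real.pi), ?_⟩
      change gam p (2 * Real.pi * (α / (2 * Real.pi))) = gam p α
      rw [mul_div_cancel₀ α (by positivity)]

end Pool.Agent.H947.GX
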