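import Mathlib
import Pool.Agent.H242.GX.Stm2

/-! # Project GX (helper242), second part: one step of the formal first integral with a mirror
symmetry (STEPM) -/

set_option autoImplicit false

open Set Filter Topology
open scoped ContDiff
open Pool.Agent.H242.GX

namespace Pool.Agent.H947.GX.STEPM

theorem zero_at {h : ℝ → ℝ} (hc : Continuous h) (h0 : ∀ t, t ≠ 0 → h t = 0) : h 0 = 0 := by
  have h1 : Tendsto h (𝓝[≠] (0 : ℝ)) (𝓝 (h 0)) := hc.continuousAt.tendsto.mono_left nhdsWithin_le_nhds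
  have h2 : Tendsto h (𝓝[≠] (0 : ℝ)) (𝓝 0) := by
    refine (tendsto_const_nhds (x := (0 : ℝ))).congr' ?_
    filter_upwards [self_mem_nhdsWithin] with t ht
    exact (h0 t ht).symm
  exact tendsto_nhds_unique h1 h2

/-- a smooth even function which vanishes on the axis is divisible by `t²` -/
theorem even_div (hHAD : S_HAD) {f : ℝ × ℝ → ℝ} (hf : ContDiff ℝ ∞ f)
    (he : ∀ θ t : ℝ, f (θ, -t) = f (θ, t)) (h0 : ∀ θ : ℝ, f (θ, 0) = 0) :
    ∃ g : ℝ × ℝ → ℝ, ContDiff ℝ ∞ g ∧ ∀ θ t : ℝ, f (θ, t) = t ^ 2 * g (θ, t) := by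
  obtain ⟨g1, hg1, e1⟩ := hHAD f hf h0
  have hc : Continuous g1 := hg1.continuous
  have h1 : ∀ θ : ℝ, g1 (θ, 0) = 0 := by
    intro θ
    have hz := zero_at (h := fun t => g1 (θ, t) + g1 (θ, -t)) (by fun_prop) (by
      intro t ht
      have a1 := e1 θ t
      have a2 := e1 θ (-t)
      rw [he] at a2
      have a3 : t * (g1 (θ, t) + g1 (θ, -t)) = 0 := by linarith
      exact (mul_eq_zero.1 a3).resolve_left ht)
    have hz' : g1 (θ, 0) + g1 (θ, -0) = 0 := hz
    rw [neg_zero] at hz'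
    linarith
  obtain ⟨g2, hg2, e2⟩ := hHAD g1 hg1 h1
  exact ⟨g2, hg2, fun θ t => by rw [e1, e2]; ring⟩

theorem odd_neg (X : ℝ × ℝ → ℝ × ℝ) (H : ℝ × ℝ → ℝ) (θ t : ℝ) :
    Pool.Agent.H242.GX.Odd X H θ (-t) = - Pool.Agent.H242.GX.Odd X H θ t := by
  unfold Pool.Agent.H242.GX.Odd
  rw [neg_neg]
  ring

/-- the partial derivative in the second variable -/
theorem dt_eq {f : ℝ × ℝ → ℝ} (hf : ContDiff ℝ ∞ f) (θ t : ℝ) :
    deriv (fun t => f (θ, t)) t = fderiv ℝ f (θ, t) (0, 1) := by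
  have h1 : HasFDerivAt f (fderiv ℝ f (θ, t)) (θ, t) :=
    (hf.differentiable (by simp) _).hasFDerivAt
  have h2 : HasDerivAt (fun t : ℝ => (θ, t)) ((0 : ℝ), (1 : ℝ)) t :=
    (hasDerivAt_const t θ).prodMk (hasDerivAt_id t)
  exact (h1.comp_hasDerivAt t h2).deriv

theorem dt_smooth {f : ℝ × ℝ → ℝ} (hf : ContDiff ℝ ∞ f) :
    ContDiff ℝ ∞ (fun x : ℝ × ℝ => deriv (fun t => f (x.1, t)) x.2) := by
  have h1 : (fun x : ℝ × ℝ => deriv (fun t => f (x.1, t)) x.2) =
      fun x : ℝ × ℝ => fderiv ℝ f x (0, 1) := by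
    funext x
    exact dt_eq hf x.1 x.2
  rw [h1]
  exact (hf.fderiv_right (m := ∞) (by simp)).clm_apply contDiff_const

theorem deriv_odd (f : ℝ → ℝ) (t : ℝ) : deriv (fun t => -(f (-t))) t = deriv f (-t) := by
  rw [deriv.fun_neg, deriv_comp_neg, neg_neg]

/-- an odd smooth periodic function has an even periodic primitive -/
theorem int_even {w : ℝ → ℝ} (hw : ContDiff ℝ ∞ w) (hwp : ∀ θ, w (θ + 2 * Real.pi) = w θ)
    (hwo : ∀ θ, w (-θ) = - w θ) :
    ∃ v : ℝ → ℝ, EP v ∧ ∀ θ, deriv v θ = w θ := by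
  have hvd : ∀ θ, HasDerivAt (fun θ => ∫ x in (0 : ℝ)..θ, w x) (w θ) θ := fun θ =>
    intervalIntegral.integral_hasDerivAt_right (hw.continuous.intervalIntegrable _ _)
      (hw.continuous.stronglyMeasurableAtFilter _ _) hw.continuous.continuousAt
  have hvd' : deriv (fun θ => ∫ x in (0 : ℝ)..θ, w x) = w := funext fun θ => (hvd θ).deriv
  have heven : ∀ θ : ℝ, (∫ x in (0 : ℝ)..(-θ), w x) = ∫ x in (0 : ℝ)..θ, w x := by
    intro θ
    have h1 : (∫ x in (0 : ℝ)..θ, w (-x)) = ∫ x in (-θ)..(-0), w x :=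
      intervalIntegral.integral_comp_neg (fun x => w x)
    have h2 : (fun x => w (-x)) = fun x => - w x := funext hwo
    rw [h2, intervalIntegral.integral_neg, neg_zero] at h1
    rw [intervalIntegral.integral_symm (-θ) 0]
    linarith
  refine ⟨fun θ => ∫ x in (0 : ℝ)..θ, w x, ⟨?_, ?_, ?_⟩, fun θ => (hvd θ).deriv⟩
  · refine contDiff_infty_iff_deriv.2 ⟨fun θ => (hvd θ).differentiableAt, ?_⟩
    rw [hvd']
    exact hw
  · intro θ
    have h1 : (∫ x in (0 : ℝ)..θ, w x) + ∫ x in θ..(θ + 2 * Real.pi), w x =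
        ∫ x in (0 : ℝ)..(θ + 2 * Real.pi), w x :=
      intervalIntegral.integral_add_adjacent_intervals (hw.continuous.intervalIntegrable _ _)
        (hw.continuous.intervalIntegrable _ _)
    have h2 : ∫ x in θ..(θ + 2 * Real.pi), w x =
        ∫ x in (-Real.pi)..(-Real.pi + 2 * Real.pi), w x :=
      Function.Periodic.intervalIntegral_add_eq (fun x => hwp x) θ (-Real.pi)
    have h3 : (∫ x in (0 : ℝ)..(-Real.pi), w x) +
        ∫ x in (-Real.pi)..(-Real.pi + 2 * Real.pi), w x =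
        ∫ x in (0 : ℝ)..(-Real.pi + 2 * Real.pi), w x :=
      intervalIntegral.integral_add_adjacent_intervals (hw.continuous.intervalIntegrable _ _)
        (hw.continuous.intervalIntegrable _ _)
    have h4 : -Real.pi + 2 * Real.pi = Real.pi := by ring
    rw [heven, h4] at h3
    rw [h4] at h2
    change (∫ x in (0 : ℝ)..(θ + 2 * Real.pi), w x) = ∫ x in (0 : ℝ)..θ, w x
    linarith
  · intro θ
    exact heven θ

theorem gx_STEPM (hLIN : S_LIN) (hHAD : S_HAD) : S_STEPM := by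
  intro X Z hW n H E hn hH hHper hHev hE hodd
  have hEc := hE.continuous
  -- symmetry properties of `E`
  have hEe : ∀ θ t, E (θ, -t) = E (θ, t) := by
    intro θ t
    rcases eq_or_ne t 0 with rfl | ht
    · rw [neg_zero]
    have a1 := hodd θ t
    have a2 := hodd θ (-t)
    rw [odd_neg, a1] at a2
    have a4 : (-t) ^ (2 * n + 1) = - t ^ (2 * n + 1) := by
      rw [pow_succ, pow_mul, neg_sq]; ring
    rw [a4] at a2
    have a5 : t ^ (2 * n + 1) ≠ 0 := pow_ne_zero _ ht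
    have a6 : t ^ (2 * n + 1) * (E (θ, -t) - E (θ, t)) = 0 := by linarith
    have a7 := (mul_eq_zero.1 a6).resolve_left a5
    linarith
  have hEp : ∀ θ, E (θ + 2 * Real.pi, 0) = E (θ, 0) := by
    intro θ
    have hz := zero_at (h := fun t => E (θ + 2 * Real.pi, t) - E (θ, t)) (by fun_prop) (by
      intro t ht
      have a1 := hodd θ t
      have a2 := hodd (θ + 2 * Real.pi) t
      have a3 : Pool.Agent.H242.GX.Odd X H (θ + 2 * Real.pi) t =
          Pool.Agent.H242.GX.Odd X H θ t := by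
        unfold Pool.Agent.H242.GX.Odd
        rw [hW.per, hW.per]
        simp only [hHper]
      rw [a3, a1] at a2
      have a5 : t ^ (2 * n + 1) ≠ 0 := pow_ne_zero _ ht
      have a6 : t ^ (2 * n + 1) * (E (θ + 2 * Real.pi, t) - E (θ, t)) = 0 := by linarith
      exact (mul_eq_zero.1 a6).resolve_left a5)
    have hz' : E (θ + 2 * Real.pi, 0) - E (θ, 0) = 0 := hz
    linarith
  have hmir : ∀ θ t : ℝ, X (-θ, t) = (-(X (θ, -t)).1, -(X (θ, -t)).2) := by
    intro θ t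
    have h1 := hW.mir θ (-t)
    rwa [neg_neg] at h1
  have hEo : ∀ θ, E (-θ, 0) = - E (θ, 0) := by
    intro θ
    have hz := zero_at (h := fun t => E (-θ, t) + E (θ, t)) (by fun_prop) (by
      intro t ht
      have a1 := hodd θ t
      have a2 := hodd (-θ) t
      have a3 : Pool.Agent.H242.GX.Odd X H (-θ) t =
          - Pool.Agent.H242.GX.Odd X H θ t := by
        unfold Pool.Agent.H242.GX.Odd
        rw [hmir, hmir]
        simp only [hHev, neg_sq, neg_neg]
        ring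
      rw [a3, a1] at a2
      have a5 : t ^ (2 * n + 1) ≠ 0 := pow_ne_zero _ ht
      have a6 : t ^ (2 * n + 1) * (E (-θ, t) + E (θ, t)) = 0 := by linarith
      exact (mul_eq_zero.1 a6).resolve_left a5)
    have hz' : E (-θ, 0) + E (θ, 0) = 0 := hz
    linarith
  -- the derivatives of the web
  have hX1 : ContDiff ℝ ∞ (fun x => (X x).1) := hW.smX.fst
  have hX2 : ContDiff ℝ ∞ (fun x => (X x).2) := hW.smX.snd
  have hax : ContDiff ℝ ∞ (fun θ : ℝ => (θ, (0 : ℝ))) := contDiff_id.prodMk contDiff_const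
  obtain ⟨a, ha⟩ : ∃ a : ℝ → ℝ, ∀ θ, a θ = deriv (fun t => (X (θ, t)).1) 0 := ⟨_, fun _ => rfl⟩
  obtain ⟨b, hb⟩ : ∃ b : ℝ → ℝ, ∀ θ, b θ = deriv (fun t => (X (θ, t)).2) 0 := ⟨_, fun _ => rfl⟩
  obtain ⟨b2, hb2⟩ : ∃ b2 : ℝ → ℝ, ∀ θ, b2 θ = deriv (deriv (fun t => (X (θ, t)).2)) 0 :=
    ⟨_, fun _ => rfl⟩
  have has : ContDiff ℝ ∞ a := by
    have h1 : a = (fun x : ℝ × ℝ => deriv (fun t => (X (x.1, t)).1) x.2) ∘
        fun θ : ℝ => (θ, (0 : ℝ)) := funext ha
    rw [h1]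
    exact (dt_smooth hX1).comp hax
  have hbs : ContDiff ℝ ∞ b := by
    have h1 : b = (fun x : ℝ × ℝ => deriv (fun t => (X (x.1, t)).2) x.2) ∘
        fun θ : ℝ => (θ, (0 : ℝ)) := funext hb
    rw [h1]
    exact (dt_smooth hX2).comp hax
  have hb2s : ContDiff ℝ ∞ b2 := by
    have h1 : b2 = (fun x : ℝ × ℝ => deriv (fun t =>
        (fun y : ℝ × ℝ => deriv (fun t => (X (y.1, t)).2) y.2) (x.1, t)) x.2) ∘
        fun θ : ℝ => (θ, (0 : ℝ)) := funext hb2
    rw [h1]
    exact (dt_smooth (dt_smooth hX2)).comp hax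
  have hapos : ∀ θ, 0 < a θ := fun θ => by rw [ha]; exact hW.der1 θ
  have hbpos : ∀ θ, 0 < b θ := fun θ => by rw [hb]; exact hW.der2 θ
  have hap : ∀ θ, a (θ + 2 * Real.pi) = a θ := by
    intro θ
    rw [ha, ha]
    have h1 : (fun t => (X (θ + 2 * Real.pi, t)).1) =
        fun t => (X (θ, t)).1 + 2 * Real.pi := by
      funext t
      rw [hW.per]
    rw [h1, deriv_add_const]
  have hp2 : ∀ θ, (fun t => (X (θ + 2 * Real.pi, t)).2) = fun t => (X (θ, t)).2 := by
    intro θ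
    funext t
    rw [hW.per]
  have hbp : ∀ θ, b (θ + 2 * Real.pi) = b θ := by
    intro θ
    rw [hb, hb, hp2]
  have hb2p : ∀ θ, b2 (θ + 2 * Real.pi) = b2 θ := by
    intro θ
    rw [hb2, hb2, hp2]
  have hm1 : ∀ θ, (fun t => (X (-θ, t)).1) = fun t => -((fun s => (X (θ, s)).1) (-t)) := by
    intro θ
    funext t
    rw [hmir]
  have hm2 : ∀ θ, (fun t => (X (-θ, t)).2) = fun t => -((fun s => (X (θ, s)).2) (-t)) := by
    intro θ
    funext t
    rw [hmir]
  have hae : ∀ θ, a (-θ) = a θ := by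
    intro θ
    rw [ha, ha, hm1, deriv_odd (fun s => (X (θ, s)).1), neg_zero]
  have hd2 : ∀ θ, deriv (fun t => (X (-θ, t)).2) = fun t => deriv (fun s => (X (θ, s)).2) (-t) := by
    intro θ
    funext t
    rw [hm2, deriv_odd (fun s => (X (θ, s)).2)]
  have hbe : ∀ θ, b (-θ) = b θ := by
    intro θ
    rw [hb, hb, hd2]
    change deriv (fun s => (X (θ, s)).2) (-0) = _
    rw [neg_zero]
  have hb2o : ∀ θ, b2 (-θ) = - b2 θ := by
    intro θ
    rw [hb2, hb2, hd2, deriv_comp_neg, neg_zero]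
  -- the function `B`
  obtain ⟨B, hB, hBd⟩ := int_even (w := fun θ => b2 θ / (a θ * b θ))
    (hb2s.div (has.mul hbs) (fun θ => (mul_pos (hapos θ) (hbpos θ)).ne'))
    (fun θ => by simp only [hb2p, hap, hbp]) (fun θ => by simp only [hb2o, hae, hbe, neg_div])
  have hE0s : ContDiff ℝ ∞ (fun θ : ℝ => E (θ, 0)) := hE.comp hax
  have hexps : ContDiff ℝ ∞ (fun θ => Real.exp (n * B θ)) :=
    (contDiff_const.mul hB.smooth).exp
  obtain ⟨v, hv, hvd⟩ := int_even
    (w := fun θ => -(Real.exp (n * B θ) * E (θ, 0) / (2 * a θ * b θ ^ (2 * n))))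
    (((hexps.mul hE0s).div ((contDiff_const.mul has).mul (hbs.pow _))
      (fun θ => (mul_pos (mul_pos two_pos (hapos θ)) (pow_pos (hbpos θ) _)).ne')).neg)
    (fun θ => by simp only [hB.per, hEp, hap, hbp])
    (fun θ => by simp only [hB.even, hEo, hae, hbe]; ring)
  have hu : EP (fun θ => Real.exp (-(n * B θ)) * v θ) :=
    ⟨((contDiff_const.mul hB.smooth).neg.exp).mul hv.smooth,
      fun φ => by simp only [hB.per, hv.per], fun φ => by simp only [hB.even, hv.even]⟩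
  refine ⟨_, hu, ?_⟩
  obtain ⟨s, hs, hso, hse, hs0⟩ := hLIN X Z hW.toWeb n hn
    (fun θ => Real.exp (-(n * B θ)) * v θ) ⟨hu.smooth, hu.per⟩
  have hsum : ∀ θ, E (θ, 0) + s (θ, 0) = 0 := by
    intro θ
    have hBD : HasDerivAt B (b2 θ / (a θ * b θ)) θ := by
      rw [← hBd]
      exact (hB.smooth.differentiable (by simp) θ).hasDerivAt
    have hvD : HasDerivAt v (-(Real.exp (n * B θ) * E (θ, 0) / (2 * a θ * b θ ^ (2 * n)))) θ := by
      rw [← hvd]
      exact (hv.smooth.differentiable (by simp) θ).hasDerivAt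
    have hud := ((hBD.const_mul (n : ℝ)).fun_neg.exp.fun_mul hvD).deriv
    rw [hs0 θ, hud, ← ha, ← hb, ← hb2]
    have ha0 : a θ ≠ 0 := (hapos θ).ne'
    have hb0 : b θ ≠ 0 := (hbpos θ).ne'
    have hee : Real.exp (-(n * B θ)) * Real.exp (n * B θ) = 1 := by
      rw [← Real.exp_add, neg_add_cancel, Real.exp_zero]
    obtain ⟨m, rfl⟩ : ∃ m, n = m + 1 := ⟨n - 1, by omega⟩
    have e0 : 2 * (m + 1) - 1 = 2 * m + 1 := by omega
    rw [e0]
    have e1 : b θ ^ (2 * (m + 1)) = b θ ^ (2 * m + 1) * b θ := by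
      rw [← pow_succ]
      congr 1
    rw [e1]
    have hb1 : b θ ^ (2 * m + 1) ≠ 0 := pow_ne_zero _ hb0
    generalize b θ ^ (2 * m + 1) = bb at *
    generalize Real.exp (-(((m + 1 : ℕ) : ℝ) * B θ)) = P at *
    generalize Real.exp (((m + 1 : ℕ) : ℝ) * B θ) = Q at *
    generalize ((m + 1 : ℕ) : ℝ) = N at *
    generalize a θ = aa at *
    generalize b θ = b0 at *
    generalize b2 θ = b20 at *
    generalize v θ = vv at *
    generalize E (θ, 0) = E0 at *
    have e2 : 2 * (bb * b0) * aa * (P * -(N * (b20 / (aa * b0))) * vv + P * -(Q * E0 / (2 * aa * (bb * b0)))) +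
        2 * N * bb * b20 * (P * vv) = -(P * Q) * E0 := by
      field_simp
      ring
    rw [e2, hee]
    ring
  obtain ⟨g, hg, eg⟩ := even_div hHAD (f := fun x => E x + s x) (hE.add hs)
    (fun θ t => by simp only [hEe, hse]) hsum
  refine ⟨g, hg, fun θ t => ?_⟩
  have h1 := hso θ t
  have h2 := hodd θ t
  have h3 := eg θ t
  have h4 : Pool.Agent.H242.GX.Odd X
      (fun x => H x + x.2 ^ n * (fun θ => Real.exp (-(n * B θ)) * v θ) x.1) θ t =
      Pool.Agent.H242.GX.Odd X H θ t + Pool.Agent.H242.GX.Odd X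
        (fun x => x.2 ^ n * (fun θ => Real.exp (-(n * B θ)) * v θ) x.1) θ t := by
    unfold Pool.Agent.H242.GX.Odd
    ring
  have h5 : E (θ, t) + s (θ, t) = t ^ 2 * g (θ, t) := h3
  rw [h4, h1, h2, ← mul_add, h5]
  ring

end Pool.Agent.H947.GX.STEPM
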